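import Pool.Agent.H.MP_c3d4b2_gt.Main

namespace Pool.Agent.H.MP_a8efab_gt

open Matrix MeasureTheory Pool.Agent.H.MP_44343f_gt Pool.Agent.H.MP_c3d4b2_gt
open Pool.Agent.H.MP_f5d73e_gt (dot_nonneg hd_q hd_a hd_comp dot_bv sq_le_dot abs_le_r rp hd_dot)
open scoped ENNReal

noncomputable def hess {n : ℕ} (g : Met n) (f : V n → ℝ) (x u v : V n) : ℝ :=
  lineDeriv ℝ (fun z => lineDeriv ℝ f z v) x u - lineDeriv ℝ f x (chr g x u v)

def MinimalSphere {n : ℕ} (g : Met (n + 1)) (a : ℝ) : Prop :=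
  ∀ x : V (n + 1), x ⬝ᵥ x = a → ∀ e : Fin n → V (n + 1), (∀ i, x ⬝ᵥ e i = 0) →
    (∀ i j, ip (g x) (e i) (e j) = if i = j then 1 else 0) →
    ∑ i, hess g (fun y => y ⬝ᵥ y) x (e i) (e i) = 0

noncomputable def jac {n : ℕ} (g : Met (n + 1)) (φ : V n → V (n + 1)) (u : V n) : ℝ :=
  √(Matrix.of fun i j => ip (g (φ u)) (lineDeriv ℝ φ u (bv i)) (lineDeriv ℝ φ u (bv j))).det

noncomputable def area {n : ℕ} (g : Met (n + 1)) (M S : Set (V (n + 1))) : ℝ≥0∞ :=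
  ⨅ (φ : ℕ → V n → V (n + 1)) (U : ℕ → Set (V n))
    (_ : ∀ k, IsOpen (U k) ∧ ContDiffOn ℝ 1 (φ k) (U k) ∧ Set.MapsTo (φ k) (U k) M)
    (_ : S ⊆ ⋃ k, φ k '' U k), ∑' k, ∫⁻ u in U k, ENNReal.ofReal (jac g (φ k) u)

lemma det_mono {m : ℕ} {G : Matrix (Fin m) (Fin m) ℝ} (hG : G.PosSemidef) (a : Fin m → ℝ) {c : ℝ}
    (hc : 0 ≤ c) : G.det ≤ (G + c • vecMulVec a a).det := by
  by_cases h : G.det = 0
  · rw [h]
    have := posSemidef_vecMulVec_self_star a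
    rw [star_trivial] at this
    exact (hG.add (this.smul hc)).det_nonneg
  · rw [← Matrix.smul_vecMulVec, Matrix.vecMulVec_eq Unit,
      det_add_replicateCol_mul_replicateRow (isUnit_iff_ne_zero.2 h)]
    have h1 : (1 + replicateRow Unit a * G⁻¹ * replicateCol Unit (c • a)).det
        = 1 + c * (a ⬝ᵥ G⁻¹ *ᵥ a) := by
      rw [Matrix.det_unique, Matrix.mul_assoc, ← Matrix.replicateCol_mulVec, Matrix.add_apply,
        Matrix.replicateRow_mul_replicateCol_apply, Matrix.mulVec_smul, dotProduct_smul]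
      simp
    have h2 : 0 ≤ a ⬝ᵥ G⁻¹ *ᵥ a := by simpa using hG.inv.dotProduct_mulVec_nonneg a
    rw [h1]
    exact le_mul_of_one_le_right hG.det_nonneg (le_add_of_nonneg_right (mul_nonneg hc h2))

lemma gram_eq {m n : ℕ} (A : Matrix (Fin n) (Fin n) ℝ) (v : Fin m → V n) :
    (Matrix.of fun i j => ip A (v i) (v j)) = Matrix.of v * A * (Matrix.of v)ᵀ := by
  ext i j
  rw [Matrix.mul_assoc]
  rfl

variable (P : Prof)

lemma ip_x (y v : V 6) : ip (P.g y) y v = P.mu (y ⬝ᵥ y) * (y ⬝ᵥ v) := by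
  rw [P.ip_g, J_self, Prof.mu]; ring

lemma det_perp (y : V 6) (v : Fin 5 → V 6) (hv : ∀ i, y ⬝ᵥ v i = 0) :
    y ⬝ᵥ y * (Matrix.of fun i j => ip (P.g y) (v i) (v j)).det =
      P.la (y ⬝ᵥ y) * (Matrix.of (Fin.cons y v : Fin 6 → V 6)).det ^ 2 := by
  have h := congrArg Matrix.det (gram_eq (P.g y) (Fin.cons y v : Fin 6 → V 6))
  rw [Matrix.det_mul, Matrix.det_mul, Matrix.det_transpose, P.det_g, Matrix.det_succ_row_zero,
    Fin.sum_univ_succ] at h
  simp only [Matrix.of_apply, Fin.cons_zero, Fin.cons_succ, ip_x, hv, mul_zero, zero_mul,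
    Finset.sum_const_zero, add_zero, Fin.succAbove_zero] at h
  have e : (Matrix.of fun i j => ip (P.g y) ((Fin.cons y v : Fin 6 → V 6) i)
      ((Fin.cons y v : Fin 6 → V 6) j)).submatrix Fin.succ Fin.succ =
      Matrix.of fun i j => ip (P.g y) (v i) (v j) := rfl
  rw [e] at h
  have hm := P.mu_pos (dot_nonneg y)
  apply mul_left_cancel₀ hm.ne'
  simp only [Fin.val_zero, pow_zero, one_mul] at h
  linear_combination h

lemma proj_le (hP : IsMetric P.g) {a : ℝ} (ha : 0 < a)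
    (hmono : ∀ q, a ≤ q → a ^ 5 * P.la a ≤ q ^ 5 * P.la q) (x : V 6) (hx : a ≤ x ⬝ᵥ x) (s : ℝ)
    (hs : s ^ 2 * x ⬝ᵥ x = a) (v : Fin 5 → V 6) :
    (Matrix.of fun i j => ip (P.g (s • x)) (s • (v i - (x ⬝ᵥ v i / x ⬝ᵥ x) • x))
      (s • (v j - (x ⬝ᵥ v j / x ⬝ᵥ x) • x))).det ≤
      (Matrix.of fun i j => ip (P.g x) (v i) (v j)).det := by
  have hq : 0 < x ⬝ᵥ x := lt_of_lt_of_le ha hx
  obtain ⟨w, hw⟩ : ∃ w : Fin 5 → V 6, w = fun i => v i - (x ⬝ᵥ v i / x ⬝ᵥ x) • x := ⟨_, rfl⟩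
  have hw0 : ∀ i, x ⬝ᵥ w i = 0 := by
    intro i; simp only [hw, dotProduct_sub, dotProduct_smul, smul_eq_mul]; field_simp; ring
  have hvw : ∀ i, v i = w i + (x ⬝ᵥ v i / x ⬝ᵥ x) • x := by intro i; simp [hw]
  have hsx : (s • x) ⬝ᵥ (s • x) = a := by
    rw [smul_dotProduct, dotProduct_smul, ← hs]; simp only [smul_eq_mul]; ring
  have h1 := det_perp P x w hw0
  have h2 := det_perp P (s • x) (fun i => s • w i) (fun i => by
    rw [smul_dotProduct, dotProduct_smul, hw0]; simp)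
  have e : Matrix.of (Fin.cons (s • x) (fun i => s • w i) : Fin 6 → V 6) =
      s • Matrix.of (Fin.cons x w : Fin 6 → V 6) := by
    ext i j
    refine Fin.cases ?_ (fun i => ?_) i <;> simp
  rw [e, Matrix.det_smul, hsx] at h2
  have h3 : (Matrix.of fun i j => ip (P.g x) (v i) (v j)) =
      (Matrix.of fun i j => ip (P.g x) (w i) (w j))
        + (P.mu (x ⬝ᵥ x) / x ⬝ᵥ x) • vecMulVec (fun i => x ⬝ᵥ v i) (fun i => x ⬝ᵥ v i) := by
    ext i j
    simp only [Matrix.of_apply, Matrix.add_apply, Matrix.smul_apply, vecMulVec_apply, smul_eq_mul]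
    have k1 := ip_x P x (w i)
    have k2 := ip_x P x (w j)
    have k3 := ip_x P x x
    rw [hw0] at k1 k2
    conv_lhs => rw [hvw i, hvw j]
    rw [ip_add_left, ip_add_right, ip_add_right, ip_smul_right, ip_smul_right,
      P.jet.symm x (_ • x), P.jet.symm x (_ • x), ip_smul_right, ip_smul_right,
      P.jet.symm x (w i) x, P.jet.symm x (w j) x, k1, k2, k3]
    field_simp
    ring
  have hG : (Matrix.of fun i j => ip (P.g x) (w i) (w j)).PosSemidef := by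
    rw [gram_eq]
    simpa using (hP.2 x).posSemidef.mul_mul_conjTranspose_same (Matrix.of w)
  rw [h3]
  refine le_trans ?_ (det_mono hG _ (div_pos (P.mu_pos hq.le) hq).le)
  simp only [show ∀ i, v i - (x ⬝ᵥ v i / x ⬝ᵥ x) • x = w i from fun i => by rw [hw]]
  have h4 := hmono _ hx
  generalize (Matrix.of (Fin.cons x w : Fin 6 → V 6)).det = D at *
  generalize (Matrix.of fun i j => ip (P.g x) (w i) (w j)).det = d1 at *
  generalize (Matrix.of fun i j => ip (P.g (s • x)) (s • w i) (s • w j)).det = d2 at *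
  generalize x ⬝ᵥ x = q at *
  simp only [Fintype.card_fin] at h2
  have h5 : a * q ^ 6 * d2 = a * (a ^ 5 * P.la a) * D ^ 2 := by
    have : a ^ 6 = s ^ 12 * q ^ 6 := by rw [← hs]; ring
    linear_combination q ^ 6 * h2 - P.la a * D ^ 2 * this
  have h6 : a * q ^ 6 * d1 = a * (q ^ 5 * P.la q) * D ^ 2 := by
    linear_combination a * q ^ 5 * h1
  have h7 : a * q ^ 6 * d2 ≤ a * q ^ 6 * d1 := by rw [h5, h6]; gcongr
  exact le_of_mul_le_mul_left h7 (by positivity)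

noncomputable def pr (a : ℝ) (x : V 6) : V 6 := (√a * (√(x ⬝ᵥ x))⁻¹) • x

lemma jac_pr (hP : IsMetric P.g) {a : ℝ} (ha : 0 < a)
    (hmono : ∀ q, a ≤ q → a ^ 5 * P.la a ≤ q ^ 5 * P.la q) (φ : V 5 → V 6) (u : V 5)
    (hφ : DifferentiableAt ℝ φ u) (hx : a ≤ φ u ⬝ᵥ φ u) :
    jac P.g (fun y => pr a (φ y)) u ≤ jac P.g φ u := by
  have hq : 0 < φ u ⬝ᵥ φ u := lt_of_lt_of_le ha hx
  have hr := Real.sqrt_pos.2 hq
  have key : ∀ w, lineDeriv ℝ (fun y => pr a (φ y)) u w = (√a * (√(φ u ⬝ᵥ φ u))⁻¹) •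
      (lineDeriv ℝ φ u w - (φ u ⬝ᵥ lineDeriv ℝ φ u w / φ u ⬝ᵥ φ u) • φ u) := by
    intro w
    have h1 : HasDerivAt (fun t : ℝ => φ (u + t • w)) (lineDeriv ℝ φ u w) 0 :=
      hφ.lineDifferentiableAt.hasLineDerivAt
    have h2 := ((((hd_dot h1 h1).sqrt (by simpa using hq.ne')).inv
      (by simpa using hr.ne')).const_mul √a).smul h1
    refine h2.deriv.trans ?_
    simp only [zero_smul, add_zero, Pi.inv_apply, dotProduct_comm (lineDeriv ℝ φ u w),
      smul_smul, sub_eq_add_neg, ← neg_smul, smul_add]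
    congr 2
    obtain ⟨r, hr'⟩ : ∃ r, r = √(φ u ⬝ᵥ φ u) := ⟨_, rfl⟩
    have : φ u ⬝ᵥ φ u = r ^ 2 := by rw [hr', Real.sq_sqrt hq.le]
    rw [← hr'] at hr ⊢
    rw [this]
    field_simp
    ring
  unfold jac
  simp only [key]
  refine Real.sqrt_le_sqrt (proj_le P hP ha hmono (φ u) hx _ ?_ fun i => lineDeriv ℝ φ u (bv i))
  rw [mul_pow, inv_pow, Real.sq_sqrt ha.le, Real.sq_sqrt hq.le]
  field_simp

lemma pr_mem {a : ℝ} (ha : 0 < a) {x : V 6} (hx : 0 < x ⬝ᵥ x) : pr a x ⬝ᵥ pr a x = a := by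
  have hr := Real.sqrt_pos.2 hx
  rw [pr, smul_dotProduct, dotProduct_smul, smul_eq_mul, smul_eq_mul]
  field_simp
  rw [Real.sq_sqrt ha.le, Real.sq_sqrt hx.le, mul_comm]

lemma outer (hP : IsMetric P.g) {a : ℝ} (ha : 0 < a)
    (hmono : ∀ q, a ≤ q → a ^ 5 * P.la a ≤ q ^ 5 * P.la q) (S : Set (V 6))
    (hS : ∀ x : V 6, x ⬝ᵥ x = a → ∃ t : ℝ, 1 ≤ t ∧ t • x ∈ S) :
    area P.g {x | a ≤ x ⬝ᵥ x} {x | x ⬝ᵥ x = a} ≤ area P.g {x | a ≤ x ⬝ᵥ x} S := by
  refine le_iInf fun φ => le_iInf fun U => le_iInf fun h => le_iInf fun hc => ?_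
  refine iInf_le_of_le (fun k y => pr a (φ k y)) (iInf_le_of_le U (iInf_le_of_le (fun k => ?_)
    (iInf_le_of_le ?_ (ENNReal.tsum_le_tsum fun k => ?_))))
  · obtain ⟨h1, h2, h3⟩ := h k
    have hq : ∀ y ∈ U k, 0 < φ k y ⬝ᵥ φ k y := fun y hy => lt_of_lt_of_le ha (h3 hy)
    refine ⟨h1, ?_, fun y hy => (pr_mem ha (hq y hy)).ge⟩
    have h4 : ContDiffOn ℝ 1 (fun y => φ k y ⬝ᵥ φ k y) (U k) :=
      ContDiffOn.sum fun i _ => (contDiffOn_pi.1 h2 i).mul (contDiffOn_pi.1 h2 i)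
    exact (contDiffOn_const.mul ((h4.sqrt fun y hy => (hq y hy).ne').inv
      fun y hy => (Real.sqrt_pos.2 (hq y hy)).ne')).smul h2
  · intro x hx
    obtain ⟨t, ht, hxt⟩ := hS x hx
    obtain ⟨k, y, hy, e⟩ := Set.mem_iUnion.1 (hc hxt)
    refine Set.mem_iUnion.2 ⟨k, y, hy, ?_⟩
    have hx' : x ⬝ᵥ x = a := hx
    have : (t • x) ⬝ᵥ (t • x) = t ^ 2 * a := by
      rw [smul_dotProduct, dotProduct_smul, hx']; simp only [smul_eq_mul]; ring
    have hr := Real.sqrt_pos.2 ha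
    simp only [e, pr, this, smul_smul]
    rw [Real.sqrt_mul (sq_nonneg t), Real.sqrt_sq (by linarith)]
    have : √a * (t * √a)⁻¹ * t = 1 := by field_simp
    rw [this, one_smul]
  · obtain ⟨h1, h2, h3⟩ := h k
    refine setLIntegral_mono' h1.measurableSet fun y hy => ENNReal.ofReal_le_ofReal ?_
    exact jac_pr P hP ha hmono _ _
      ((h2.contDiffAt (h1.mem_nhds hy)).differentiableAt one_ne_zero) (h3 hy)

lemma minimal {a : ℝ} (ha : 0 < a) (h : 5 * P.la a + a * P.la1 a = 0) : MinimalSphere P.g a := by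
  intro x hx e he hee
  have hm := P.mu_pos ha.le
  have hl := P.la_pos ha.le
  have h1 : ∀ z v : V 6, lineDeriv ℝ (fun y : V 6 => y ⬝ᵥ y) z v = 2 * (z ⬝ᵥ v) :=
    fun z v => (hd_q z v).deriv
  have h2 : ∀ i, hess P.g (fun y => y ⬝ᵥ y) x (e i) (e i) =
      2 / P.mu a * (1 + P.la1 a * (J x ⬝ᵥ e i) ^ 2) := by
    intro i
    have k1 : lineDeriv ℝ (fun z : V 6 => 2 * (z ⬝ᵥ e i)) x (e i) = 2 * (e i ⬝ᵥ e i) :=
      ((hd_a x (e i) (e i)).const_mul 2).deriv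
    have k2 := ip_x P x (chr P.g x (e i) (e i))
    rw [P.jet.symm, P.jet.ip_chr, P.Lam_eq, hx, he, J_self, J_skew' x (e i)] at k2
    have k3 := hee i i
    rw [P.ip_g, hx, he, if_pos rfl] at k3
    simp only [hess, h1, k1]
    field_simp
    simp only [Prof.mu, Prof.la1] at *
    linear_combination k2 + k3
  have h3 : ∑ i, (J x ⬝ᵥ e i) ^ 2 = a / P.la a := by
    obtain ⟨c, hc⟩ : ∃ c, c = (√(P.mu a * a))⁻¹ := ⟨_, rfl⟩
    have hc2 : c ^ 2 * (P.mu a * a) = 1 := by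
      rw [hc, inv_pow, Real.sq_sqrt (by positivity)]; field_simp
    have hE := gram_eq (P.g x) (Fin.cons (c • x) e : Fin 6 → V 6)
    have h1 : (Matrix.of fun i j => ip (P.g x) ((Fin.cons (c • x) e : Fin 6 → V 6) i)
        ((Fin.cons (c • x) e : Fin 6 → V 6) j)) = 1 := by
      ext i j
      refine Fin.cases ?_ (fun i => ?_) i <;> refine Fin.cases ?_ (fun j => ?_) j
      · simp only [Matrix.of_apply, Fin.cons_zero, Matrix.one_apply_eq]
        rw [ip_smul_right, P.jet.symm, ip_smul_right, ip_x, hx]; linear_combination hc2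
      · simp only [Matrix.of_apply, Fin.cons_zero, Fin.cons_succ]
        rw [P.jet.symm, ip_smul_right, P.jet.symm, ip_x, he, Matrix.one_apply_ne (Fin.succ_ne_zero j).symm]
        simp
      · simp only [Matrix.of_apply, Fin.cons_zero, Fin.cons_succ]
        rw [ip_smul_right, P.jet.symm, ip_x, he, Matrix.one_apply_ne (Fin.succ_ne_zero i)]
        simp
      · simp [hee, Matrix.one_apply]
    rw [h1] at hE
    obtain ⟨E, hEe⟩ : ∃ E, E = Matrix.of (Fin.cons (c • x) e : Fin 6 → V 6) := ⟨_, rfl⟩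
    rw [← hEe] at hE
    have h4 : (P.g x)⁻¹ = Eᵀ * E := by
      apply Matrix.inv_eq_left_inv
      rw [Matrix.mul_assoc]
      exact mul_eq_one_comm.1 hE.symm
    have h5 : J x ⬝ᵥ (P.g x)⁻¹ *ᵥ J x = (E *ᵥ J x) ⬝ᵥ (E *ᵥ J x) := by
      rw [h4, ← Matrix.mulVec_mulVec, Matrix.dotProduct_mulVec, Matrix.vecMul_transpose]
    rw [P.g_inv, quad2, JJ, J_self', hx] at h5
    have h6 : (E *ᵥ J x) ⬝ᵥ (E *ᵥ J x) = ∑ i, (J x ⬝ᵥ e i) ^ 2 := by
      rw [dotProduct, Fin.sum_univ_succ]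
      have : (E *ᵥ J x) 0 = 0 := by
        rw [hEe]
        show (c • x) ⬝ᵥ J x = 0
        rw [smul_dotProduct, J_self', smul_zero]
      rw [this, zero_mul, zero_add]
      refine Finset.sum_congr rfl fun i _ => ?_
      rw [hEe, sq, dotProduct_comm]; rfl
    rw [← h6, ← h5]
    field_simp
    simp only [Prof.la]; ring
  simp only [h2, ← Finset.mul_sum, Finset.sum_add_distrib, h3]
  simp
  right
  field_simp
  linear_combination h

end Pool.Agent.H.MP_a8efab_gt
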