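import Pool.Agent.H.MP_a8efab_gt.Area

namespace Pool.Agent.H.MP_a8efab_gt

open Matrix MeasureTheory Pool.Agent.H.MP_44343f_gt Pool.Agent.H.MP_c3d4b2_gt
open Pool.Agent.H.MP_f5d73e_gt (dot_nonneg hd_q hd_a hd_comp dot_bv sq_le_dot abs_le_r rp hd_dot)
open scoped ENNReal

lemma cube_fin (g : Met 6) (hg : IsMetric g) :
    area g {x | 8 ≤ x ⬝ᵥ x} {x | ‖x‖ = 3} < ⊤ := by
  obtain ⟨φ, hφ⟩ : ∃ φ : ℕ → V 5 → V 6, φ = fun k u =>
    Fin.insertNth (α := fun _ => ℝ) (Fin.ofNat 6 k) (if k < 6 then 3 else -3) u := ⟨_, rfl⟩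
  have hsm : ∀ k, ContDiff ℝ 1 (φ k) := by
    intro k
    rw [contDiff_pi]
    intro i
    refine Fin.succAboveCases (Fin.ofNat 6 k) ?_ (fun j => ?_) i
    · simp only [hφ, Fin.insertNth_apply_same]; exact contDiff_const
    · simp only [hφ, Fin.insertNth_apply_succAbove]; fun_prop
  refine lt_of_le_of_lt (iInf_le_of_le φ (iInf_le_of_le
    (fun k => if k < 12 then Metric.ball 0 4 else ∅) (iInf_le_of_le (fun k => ?_)
    (iInf_le_of_le ?_ le_rfl)))) ?_
  · refine ⟨by dsimp only; split_ifs; exacts [Metric.isOpen_ball, isOpen_empty], (hsm k).contDiffOn,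
      fun u _ => le_trans ?_ (sq_le_dot (φ k u) (Fin.ofNat 6 k))⟩
    simp only [hφ, Fin.insertNth_apply_same]
    split_ifs <;> norm_num
  · intro x hx
    have hx' : ‖x‖ = 3 := hx
    obtain ⟨i, hi⟩ : ∃ i, |x i| = 3 := by
      by_contra hn
      push Not at hn
      have : ‖x‖ < 3 := (pi_norm_lt_iff (by norm_num)).2 fun i =>
        lt_of_le_of_ne (hx' ▸ norm_le_pi_norm x i) (hn i)
      linarith
    have hu : Fin.removeNth i x ∈ Metric.ball (0 : V 5) 4 := by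
      rw [mem_ball_zero_iff, pi_norm_lt_iff (by norm_num)]
      intro j
      have := norm_le_pi_norm x (i.succAbove j)
      exact lt_of_le_of_lt this (by linarith)
    have hlt := i.2
    rcases (abs_eq (by norm_num)).1 hi with h | h
    · refine Set.mem_iUnion.2 ⟨i, Fin.removeNth i x, by dsimp only; rw [if_pos (by omega)]; exact hu, ?_⟩
      have : Fin.ofNat 6 (i : ℕ) = i := Fin.ext (Nat.mod_eq_of_lt hlt)
      simp only [hφ, this, if_pos hlt, ← h, Fin.insertNth_self_removeNth]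
    · refine Set.mem_iUnion.2 ⟨i + 6, Fin.removeNth i x, by dsimp only; rw [if_pos (by omega)]; exact hu, ?_⟩
      have : Fin.ofNat 6 ((i : ℕ) + 6) = i := Fin.ext (by simp [Nat.mod_eq_of_lt hlt])
      simp only [hφ, this, if_neg (show ¬ ((i : ℕ) + 6 < 6) by omega), ← h,
        Fin.insertNth_self_removeNth]
  · rw [tsum_eq_sum (s := Finset.range 12) fun k hk => by
      dsimp only; rw [if_neg (by simpa using hk)]; simp]
    refine ENNReal.sum_lt_top.2 fun k hk => ?_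
    dsimp only
    rw [if_pos (Finset.mem_range.1 hk)]
    have hc : Continuous (jac g (φ k)) := by
      have h1 : ∀ w, Continuous fun u => lineDeriv ℝ (φ k) u w := by
        intro w
        have : (fun u => lineDeriv ℝ (φ k) u w) = fun u => fderiv ℝ (φ k) u w := by
          funext u; exact ((hsm k).differentiable one_ne_zero u).lineDeriv_eq_fderiv
        rw [this]
        exact ((hsm k).continuous_fderiv one_ne_zero).clm_apply continuous_const
      refine Continuous.sqrt (Continuous.matrix_det (continuous_matrix fun i j => ?_))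
      simp only [Matrix.of_apply, ip, dotProduct, Matrix.mulVec]
      exact continuous_finsetSum _ fun a _ => ((continuous_apply a).comp (h1 _)).mul
        (continuous_finsetSum _ fun b _ => ((hg.1 a b).continuous.comp (hsm k).continuous).mul
          ((continuous_apply b).comp (h1 _)))
    exact ((hc.continuousOn.integrableOn_compact (isCompact_closedBall 0 4)).mono_set
      Metric.ball_subset_closedBall).setLIntegral_lt_top

lemma area_pos (P : Prof) (M : Set (V 6)) : 0 < area P.g M {x | x ⬝ᵥ x = 8} := by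
  refine lt_of_lt_of_le (Metric.measure_ball_pos (volume : Measure (V 5)) 0 one_pos)
    (le_iInf fun φ => le_iInf fun U => le_iInf fun h => le_iInf fun hc => ?_)
  have h1 : Metric.ball (0 : V 5) 1 ⊆ ⋃ k, (fun u => Fin.tail (φ k u)) '' U k := by
    intro y hy
    have hy' : y ⬝ᵥ y ≤ 5 := by
      calc y ⬝ᵥ y ≤ ∑ _i : Fin 5, (1 : ℝ) := Finset.sum_le_sum fun i _ => by
            have := (norm_le_pi_norm y i).trans (mem_ball_zero_iff.1 hy).le
            rw [Real.norm_eq_abs, abs_le] at this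
            nlinarith
        _ = 5 := by simp
    have hx : (Fin.cons √(8 - y ⬝ᵥ y) y : V 6) ∈ {x : V 6 | x ⬝ᵥ x = 8} := by
      show _ ⬝ᵥ _ = _
      rw [dotProduct, Fin.sum_univ_succ]
      simp only [Fin.cons_zero, Fin.cons_succ]
      rw [Real.mul_self_sqrt (by linarith), dotProduct]; ring
    obtain ⟨k, u, hu, e⟩ := Set.mem_iUnion.1 (hc hx)
    exact Set.mem_iUnion.2 ⟨k, u, hu, by simp only [e, Fin.tail_cons]⟩
  refine (measure_mono h1).trans ((measure_iUnion_le _).trans (ENNReal.tsum_le_tsum fun k => ?_))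
  obtain ⟨h1, h2, -⟩ := h k
  have hd : ∀ u ∈ U k, DifferentiableAt ℝ (φ k) u := fun u hu =>
    (h2.contDiffAt (h1.mem_nhds hu)).differentiableAt one_ne_zero
  have hd' : ∀ u ∈ U k, HasFDerivAt (fun u => Fin.tail (φ k u))
      (ContinuousLinearMap.pi fun i : Fin 5 =>
        (ContinuousLinearMap.proj i.succ).comp (fderiv ℝ (φ k) u)) u := fun u hu =>
    hasFDerivAt_pi.2 fun i => hasFDerivAt_pi'.1 (hd u hu).hasFDerivAt i.succ
  refine (addHaar_image_le_lintegral_abs_det_fderiv volume h1.measurableSet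
    fun u hu => (hd' u hu).hasFDerivWithinAt).trans
    (setLIntegral_mono' h1.measurableSet fun u hu => ENNReal.ofReal_le_ofReal ?_)
  obtain ⟨v, hv⟩ : ∃ v : Fin 5 → V 6, v = fun i => fderiv ℝ (φ k) u (bv i) := ⟨_, rfl⟩
  obtain ⟨B, hB⟩ : ∃ B : Matrix (Fin 5) (Fin 5) ℝ, B = Matrix.of fun i j => v i j.succ := ⟨_, rfl⟩
  have e1 : (ContinuousLinearMap.pi fun i : Fin 5 =>
      (ContinuousLinearMap.proj i.succ).comp (fderiv ℝ (φ k) u)).det = B.det := by
    rw [ContinuousLinearMap.det, ← LinearMap.det_toMatrix', ← Matrix.det_transpose]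
    congr 1
    ext i j
    simp [hB, hv, bv, LinearMap.toMatrix'_apply]
  have e2 : (Matrix.of fun i j => ip (P.g (φ k u)) (lineDeriv ℝ (φ k) u (bv i))
      (lineDeriv ℝ (φ k) u (bv j))) = B * Bᵀ + (1 : ℝ) • vecMulVec (fun i => v i 0) (fun i => v i 0)
      + P.a0 (φ k u ⬝ᵥ φ k u) • vecMulVec (fun i => φ k u ⬝ᵥ v i) (fun i => φ k u ⬝ᵥ v i)
      + P.c0 (φ k u ⬝ᵥ φ k u) • vecMulVec (fun i => J (φ k u) ⬝ᵥ v i) (fun i => J (φ k u) ⬝ᵥ v i) := by
    ext i j
    simp only [(hd u hu).lineDeriv_eq_fderiv, Matrix.of_apply, P.ip_g, Matrix.add_apply,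
      Matrix.smul_apply, vecMulVec_apply, smul_eq_mul, Matrix.mul_apply, hB, hv,
      Matrix.transpose_apply, one_mul]
    rw [dotProduct, Fin.sum_univ_succ, add_comm (_ * _)]
  have psd : ∀ (a : Fin 5 → ℝ) {c : ℝ}, 0 ≤ c → (c • vecMulVec a a).PosSemidef := by
    intro a c hc
    have := posSemidef_vecMulVec_self_star a
    rw [star_trivial] at this
    exact this.smul hc
  have p0 : (B * Bᵀ).PosSemidef := by simpa using posSemidef_self_mul_conjTranspose B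
  have pa := P.pa _ (dot_nonneg (φ k u))
  have pc := P.pc _ (dot_nonneg (φ k u))
  rw [e1, jac, e2]
  refine Real.abs_le_sqrt ?_
  calc B.det ^ 2 = (B * Bᵀ).det := by rw [Matrix.det_mul, Matrix.det_transpose, sq]
    _ ≤ _ := ((det_mono p0 _ zero_le_one).trans (det_mono (p0.add (psd _ zero_le_one)) _ pa)).trans
      (det_mono ((p0.add (psd _ zero_le_one)).add (psd _ pa)) _ pc)

noncomputable def P1 : Prof where
  a0 _ := 0
  a1 _ := 0
  a2 _ := 0
  c0 q := 2 * W q ^ 3 + 334276389 / 16 * W q ^ 14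
  c1 q := -3 * W q ^ 5 - 7 * (334276389 / 16) * W q ^ 16
  c2 q := 15 / 2 * W q ^ 7 + 56 * (334276389 / 16) * W q ^ 18
  ha0 q _ := hasDerivAt_const q 0
  ha1 q _ := hasDerivAt_const q 0
  hc0 q hq := ((((hd_W hq).pow 3).const_mul 2).add (((hd_W hq).pow 14).const_mul _)).congr_deriv
    (by norm_num; ring)
  hc1 q hq := ((((hd_W hq).pow 5).const_mul (-3)).sub (((hd_W hq).pow 16).const_mul _)).congr_deriv
    (by norm_num; ring)
  pa _ _ := le_rfl
  pc q hq := by have := W_pos hq; positivity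

lemma P1_vals {q : ℝ} (hq : 0 ≤ q) (w K : ℝ) (hw : W q = w) (hK : 334276389 / 16 = K) :
    P1.a0 q = 0 ∧ P1.c0 q = 2 * w ^ 3 + K * w ^ 14 ∧ P1.mu q = 1 ∧
    P1.la q = 1 + (2 * w + K * w ^ 12) * (1 - w ^ 2) ∧ P1.mu1 q = 0 ∧
    P1.la1 q = w ^ 3 * (3 * w ^ 2 - 1) + K * w ^ 14 * (7 * w ^ 2 - 6) ∧
    q * P1.la1 q = (1 - w ^ 2) * (w * (3 * w ^ 2 - 1) + K * w ^ 12 * (7 * w ^ 2 - 6)) ∧
    q * P1.la2 q = (1 - w ^ 2) * (w ^ 3 * (3 - 15 * w ^ 2) / 2 + K * w ^ 14 * (42 - 56 * w ^ 2)) ∧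
    P1.c0 q ^ 2 * q - P1.c1 q * q =
      (w ^ 4 * (2 + K * w ^ 11) ^ 2 + 3 * w ^ 3 + 7 * K * w ^ 14) * (1 - w ^ 2) := by
  have h := W_sq hq
  simp only [P1, Prof.mu, Prof.la, Prof.mu1, Prof.la1, Prof.la2, hw, hK] at h ⊢
  refine ⟨trivial, trivial, by ring, ?_, by ring, ?_, ?_, ?_, ?_⟩
  · linear_combination (2 * w + K * w ^ 12) * h
  · linear_combination (-3 * w ^ 3 - 7 * K * w ^ 14) * h
  · linear_combination ((-3 * w ^ 3 - 7 * K * w ^ 14) * q
      + (w * (3 * w ^ 2 - 1) + K * w ^ 12 * (7 * w ^ 2 - 6))) * h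
  · linear_combination ((15 / 2 * w ^ 5 + 56 * K * w ^ 16) * q
      + (w ^ 3 * (3 - 15 * w ^ 2) / 2 + K * w ^ 14 * (42 - 56 * w ^ 2))) * h
  · linear_combination (w ^ 4 * (2 + K * w ^ 11) ^ 2 + 3 * w ^ 3 + 7 * K * w ^ 14) * h

noncomputable def NB (w : ℝ) : ℝ :=
  12 * w ^ 0 * (1 - 3 * w) ^ 49
    + 1704 * w ^ 1 * (1 - 3 * w) ^ 48
    + 118212 * w ^ 2 * (1 - 3 * w) ^ 47
    + 5338452 * w ^ 3 * (1 - 3 * w) ^ 46
    + 176433336 * w ^ 4 * (1 - 3 * w) ^ 45
    + 4548388512 * w ^ 5 * (1 - 3 * w) ^ 44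
    + 95195361816 * w ^ 6 * (1 - 3 * w) ^ 43
    + 1662243108984 * w ^ 7 * (1 - 3 * w) ^ 42
    + 24695031752172 * w ^ 8 * (1 - 3 * w) ^ 41
    + 316743301345644 * w ^ 9 * (1 - 3 * w) ^ 40
    + 7093404846182871 / 2 * w ^ 10 * (1 - 3 * w) ^ 39
    + 279761446473066567 / 8 * w ^ 11 * (1 - 3 * w) ^ 38
    + 2445429991419917307 / 8 * w ^ 12 * (1 - 3 * w) ^ 37
    + 19058792815821357135 / 8 * w ^ 13 * (1 - 3 * w) ^ 36
    + 133241757240913789923 / 8 * w ^ 14 * (1 - 3 * w) ^ 35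
    + 843602408342346405051 / 8 * w ^ 15 * (1 - 3 * w) ^ 34
    + 616681869910987590342 * w ^ 16 * (1 - 3 * w) ^ 33
    + 13877978093720858813643 / 4 * w ^ 17 * (1 - 3 * w) ^ 32
    + 20061149147705723375817 * w ^ 18 * (1 - 3 * w) ^ 31
    + 253097981244417417612975 / 2 * w ^ 19 * (1 - 3 * w) ^ 30
    + 1734088607513463776037777 / 2 * w ^ 20 * (1 - 3 * w) ^ 29
    + 1549597814514655600143315807 / 256 * w ^ 21 * (1 - 3 * w) ^ 28
    + 2584904290900012170084831219 / 64 * w ^ 22 * (1 - 3 * w) ^ 27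
    + 7943244816403166599841605371 / 32 * w ^ 23 * (1 - 3 * w) ^ 26
    + 177031615442871087094853545281 / 128 * w ^ 24 * (1 - 3 * w) ^ 25
    + 1779172475436940500213162620697 / 256 * w ^ 25 * (1 - 3 * w) ^ 24
    + 1007127427826478294441194562639 / 32 * w ^ 26 * (1 - 3 * w) ^ 23
    + 2056953352271650292921178012309 / 16 * w ^ 27 * (1 - 3 * w) ^ 22
    + 60720693836558091191500519550277 / 128 * w ^ 28 * (1 - 3 * w) ^ 21
    + 405510539075774671661861875134489 / 256 * w ^ 29 * (1 - 3 * w) ^ 20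
    + 4796909210306099081821019817933 * w ^ 30 * (1 - 3 * w) ^ 19
    + 845749299591570264760412415342747 / 64 * w ^ 31 * (1 - 3 * w) ^ 18
    + 2129374501116941943989743856722677 / 64 * w ^ 32 * (1 - 3 * w) ^ 17
    + 157866449454190616289585164242930053 / 2048 * w ^ 33 * (1 - 3 * w) ^ 16
    + 84913826156220971094420837086568819 / 512 * w ^ 34 * (1 - 3 * w) ^ 15
    + 171411622128682226765048530516803093 / 512 * w ^ 35 * (1 - 3 * w) ^ 14
    + 327278231382979196559963987980043069 / 512 * w ^ 36 * (1 - 3 * w) ^ 13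
    + 1183948673399205091565353025872047201 / 1024 * w ^ 37 * (1 - 3 * w) ^ 12
    + 251792777557307127085347710849216301 / 128 * w ^ 38 * (1 - 3 * w) ^ 11
    + 6360023509892930930693727272747187933 / 2048 * w ^ 39 * (1 - 3 * w) ^ 10
    + 4591754080752758174733415606698645135 / 1024 * w ^ 40 * (1 - 3 * w) ^ 9
    + 12020625509271110205795039229497982593 / 2048 * w ^ 41 * (1 - 3 * w) ^ 8
    + 3565334055622031180599599631482207525 / 512 * w ^ 42 * (1 - 3 * w) ^ 7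
    + 7709419665038319411366094535886578103 / 1024 * w ^ 43 * (1 - 3 * w) ^ 6
    + 1893753487522619694579953162822097411 / 256 * w ^ 44 * (1 - 3 * w) ^ 5
    + 420521371544822012889101653671737485011 / 65536 * w ^ 45 * (1 - 3 * w) ^ 4
    + 75660465604772072038898948360223667833 / 16384 * w ^ 46 * (1 - 3 * w) ^ 3
    + 41380826268066868767073451464502029503 / 16384 * w ^ 47 * (1 - 3 * w) ^ 2
    + 1917170887367355009790580964051145407 / 2048 * w ^ 48 * (1 - 3 * w) ^ 1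
    + 190719430649227588975171407197683947 / 1024 * w ^ 49 * (1 - 3 * w) ^ 0

noncomputable def QB (w : ℝ) : ℝ :=
  1 * w ^ 0 * (1 - 3 * w) ^ 22
    + 74 * w ^ 1 * (1 - 3 * w) ^ 21
    + 2617 * w ^ 2 * (1 - 3 * w) ^ 20
    + 58860 * w ^ 3 * (1 - 3 * w) ^ 19
    + 945199 * w ^ 4 * (1 - 3 * w) ^ 18
    + 11533032 * w ^ 5 * (1 - 3 * w) ^ 17
    + 111099203 * w ^ 6 * (1 - 3 * w) ^ 16
    + 866650334 * w ^ 7 * (1 - 3 * w) ^ 15
    + 5571133415 * w ^ 8 * (1 - 3 * w) ^ 14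
    + 29876725818 * w ^ 9 * (1 - 3 * w) ^ 13
    + 3639624973309 / 27 * w ^ 10 * (1 - 3 * w) ^ 12
    + 4630784319320 / 9 * w ^ 11 * (1 - 3 * w) ^ 11
    + 79977850805023 / 48 * w ^ 12 * (1 - 3 * w) ^ 10
    + 18311506864989 / 4 * w ^ 13 * (1 - 3 * w) ^ 9
    + 42539681752947 / 4 * w ^ 14 * (1 - 3 * w) ^ 8
    + 20722084805286 * w ^ 15 * (1 - 3 * w) ^ 7
    + 33383375830431 * w ^ 16 * (1 - 3 * w) ^ 6
    + 43468051202964 * w ^ 17 * (1 - 3 * w) ^ 5
    + 44215886478996 * w ^ 18 * (1 - 3 * w) ^ 4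
    + 33391907005824 * w ^ 19 * (1 - 3 * w) ^ 3
    + 17272584618048 * w ^ 20 * (1 - 3 * w) ^ 2
    + 5290756807680 * w ^ 21 * (1 - 3 * w) ^ 1
    + 678128163840 * w ^ 22 * (1 - 3 * w) ^ 0

lemma P1_L2 (x : V 6) : L2 P1.g x =
    8 * (W (x ⬝ᵥ x) ^ 7 * NB (W (x ⬝ᵥ x))) / (P1.mu (x ⬝ᵥ x) ^ 3 * P1.la (x ⬝ᵥ x) ^ 2) := by
  obtain ⟨h1, h2, h3, h4, h5, h6, h7, h8, h9⟩ := P1_vals (dot_nonneg x) _ _ rfl rfl
  rw [P1.L2_form x _ rfl, h9, h8, h7]
  congr 2
  rw [h1, h2, h3, h4, h5, h6]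
  simp only [Nf, An, NB]; ring

lemma W_le3 {q : ℝ} (hq : 8 ≤ q) : 0 ≤ 1 - 3 * W q := by
  have h1 := W_sq (q := q) (by linarith)
  have h2 := W_pos (q := q) (by linarith)
  nlinarith [mul_le_mul_of_nonneg_left hq (sq_nonneg (W q))]

lemma W8 : W 8 = 1 / 3 := by
  rw [W, show (1 + 8 : ℝ) = 3 ^ 2 by norm_num, Real.sqrt_sq (by norm_num)]; norm_num

lemma P1_mono (q : ℝ) (hq : 8 ≤ q) : 8 ^ 5 * P1.la 8 ≤ q ^ 5 * P1.la q := by
  have h0 : 0 ≤ q := by linarith
  have h1 := W_sq h0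
  have h2 := W_pos h0
  have h3 := W_le3 hq
  rw [(P1_vals h0 _ _ rfl rfl).2.2.2.1, (P1_vals (by norm_num) _ _ W8 rfl).2.2.2.1]
  generalize W q = w at *
  have h4 : 0 ≤ (1 - 3 * w) ^ 2 * QB w := by unfold QB; positivity
  have e : q ^ 5 * w ^ 10 = (1 - w ^ 2) ^ 5 := by
    rw [show 1 - w ^ 2 = q * w ^ 2 by linear_combination -h1]; ring
  refine le_of_mul_le_mul_left ?_ (pow_pos h2 10)
  rw [← mul_assoc _ (q ^ 5), mul_comm _ (q ^ 5), e, ← sub_nonneg]
  refine h4.trans_eq ?_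
  unfold QB; ring

lemma P1_metric : IsMetric P1.g :=
  P1.metric contDiff_const
    ((contDiff_const.mul (W_smooth.pow 3)).add (contDiff_const.mul (W_smooth.pow 14)))

noncomputable def G1 (K w : ℝ) : ℝ := (1 - w ^ 2) ^ 3 *
  (12 * (-(2 + K * w ^ 11) * (-(2 + K * w ^ 11)
      - 2 * ((3 * w ^ 2 - 1) + K * w ^ 11 * (7 * w ^ 2 - 6))) / 2
    + ((3 * w ^ 2 - 1) + K * w ^ 11 * (7 * w ^ 2 - 6)) * (2 + K * w ^ 11)))
  / (1 ^ 2 * (1 + (2 * w + K * w ^ 12) * (1 - w ^ 2)))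

lemma P1_mass : HasMass P1.g (-1 / 5) := by
  have := P1.mass (G1 (334276389 / 16)) (by
    unfold G1
    exact ContinuousAt.div (by fun_prop) (by fun_prop) (by norm_num)) (fun q hq => by
    obtain ⟨h1, h2, h3, h4, h5, h6, h7, h8, h9⟩ := P1_vals hq _ _ rfl rfl
    have h := W_sq hq
    rw [h9, h1, h2, h3, h4, h6, G1]
    congr 1
    have e : 1 - W q ^ 2 = q * W q ^ 2 := by linear_combination -h
    rw [show (1 - W q ^ 2) ^ 3 = q ^ 3 * W q ^ 6 by rw [e]; ring]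
    unfold Ff; ring)
  convert this using 1
  norm_num [G1]

theorem main : ∃ (g : Met 6) (a τ m : ℝ), 0 < a ∧ IsMetric g ∧ Complete g ∧ (6 - 4) / 3 < τ ∧
    AF g τ ∧ IntegrableOn (fun x => L2 g x * √(g x).det) {x | a ≤ x ⬝ᵥ x} ∧
    (∀ x, a ≤ x ⬝ᵥ x → 0 ≤ L2 g x) ∧ MinimalSphere g a ∧
    (∀ S : Set (V 6), (∀ x : V 6, x ⬝ᵥ x = a → ∃ t : ℝ, 1 ≤ t ∧ t • x ∈ S) →
      area g {x | a ≤ x ⬝ᵥ x} {x | x ⬝ᵥ x = a} ≤ area g {x | a ≤ x ⬝ᵥ x} S) ∧
    0 < area g {x | a ≤ x ⬝ᵥ x} {x | x ⬝ᵥ x = a} ∧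
    area g {x | a ≤ x ⬝ᵥ x} {x | x ⬝ᵥ x = a} < ⊤ ∧ HasMass g m ∧ m < 0 := by
  have hout := outer P1 P1_metric (by norm_num) P1_mono
  refine ⟨P1.g, 8, 1, -1 / 5, by norm_num, P1_metric, P1.complete P1_metric, by norm_num,
    P1.af (57 * (334276389 / 16)) fun q hq => ?_,
    (P1.integrable NB (by unfold NB; fun_prop) continuous_const
      ((continuous_const.mul (W_smooth.continuous.pow 3)).add
        (continuous_const.mul (W_smooth.continuous.pow 14))) P1_L2).integrableOn,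
    fun x hx => ?_, minimal P1 (by norm_num) ?_, hout, area_pos P1 _,
    (hout _ fun x hx => ?_).trans_lt (cube_fin _ P1_metric), P1_mass, by norm_num⟩
  · have h0 := W_pos hq
    have h1 := W_le hq
    simp only [P1, abs_zero]
    generalize W q = w at *
    have h3 := pow_pos h0 3
    have h5 := pow_pos h0 5
    have h7 := pow_pos h0 7
    have k3 : w ^ 14 ≤ w ^ 3 := pow_le_pow_of_le_one h0.le h1 (by norm_num)
    have k5 : w ^ 16 ≤ w ^ 5 := pow_le_pow_of_le_one h0.le h1 (by norm_num)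
    have k7 : w ^ 18 ≤ w ^ 7 := pow_le_pow_of_le_one h0.le h1 (by norm_num)
    have l3 := pow_pos h0 14
    have l5 := pow_pos h0 16
    have l7 := pow_pos h0 18
    refine ⟨by positivity, by positivity, by positivity, ?_, ?_, ?_⟩ <;> rw [abs_le] <;>
      constructor <;> linarith
  · have hq := dot_nonneg x
    have h1 := W_pos hq
    have h2 := W_le3 hx
    have : 0 ≤ NB (W (x ⬝ᵥ x)) := by unfold NB; positivity
    have := P1.mu_pos hq
    have := P1.la_pos hq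
    rw [P1_L2]; positivity
  · obtain ⟨-, -, -, h4, -, -, h7, -⟩ := P1_vals (by norm_num) _ _ W8 rfl
    rw [h7, h4]; norm_num
  · have h1 : ‖x‖ ≤ 3 := (pi_norm_le_iff_of_nonneg (by norm_num)).2 fun i => by
      have := sq_le_dot x i
      rw [Real.norm_eq_abs]
      exact abs_le_of_sq_le_sq' (by linarith) (by norm_num) |> abs_le.2
    have h2 : 0 < ‖x‖ := norm_pos_iff.2 fun h => by simp [h] at hx
    refine ⟨3 / ‖x‖, (one_le_div h2).2 h1, ?_⟩
    show ‖(3 / ‖x‖) • x‖ = 3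
    rw [norm_smul, Real.norm_of_nonneg (by positivity)]
    field_simp

end Pool.Agent.H.MP_a8efab_gt
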